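import Pool.Agent.Helper29.SR.Props
import Pool.Agent.Helper45.RC.DomM
import Pool.Agent.Helper10.RC.Homs

/-! # MP_b55b7c_an: tracial divisibility from stable rank one (packet SR TDivSr) -/

open scoped ENNReal NNReal InnerProductSpace ComplexOrder
open Filter Topology

attribute [-instance] CStarMatrix.instAlgebra CStarMatrix.instModule CStarMatrix.instSMul
  CStarMatrix.instMulAction CStarMatrix.instDistribMulAction

noncomputable section
namespace RC
universe u

section
variable {B : Type u} [CStarAlgebra B] [PartialOrder B] [StarOrderedRing B]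

/-- The entry of a `1 × 1` matrix as a homomorphism. -/
def ent81 (B : Type u) [CStarAlgebra B] [PartialOrder B] [StarOrderedRing B] :
    CStarMatrix Unit Unit B →⋆ₐ[ℂ] B where
  toFun x := x () ()
  map_one' := rfl
  map_mul' x y := by
    show (x * y) () () = _
    rw [CStarMatrix.mul_apply]
    simp
  map_zero' := rfl
  map_add' x y := rfl
  commutes' c := by
    show (algebraMap ℂ (CStarMatrix Unit Unit B) c) () () = _
    rw [cm_algebraMap_apply, if_pos rfl]
  map_star' x := rfl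

lemma ent81_apply (x : CStarMatrix Unit Unit B) : ent81 B x = x () () := rfl

lemma ent81_le {x y : CStarMatrix Unit Unit B} (h : x ≤ y) : x () () ≤ y () () := by
  have h1 : 0 ≤ ent81 B (y - x) := map_nonneg (ent81 B) (sub_nonneg.2 h)
  rw [map_sub] at h1
  exact sub_nonneg.1 h1

omit [CStarAlgebra B] [PartialOrder B] [StarOrderedRing B] in
lemma one1_ent81 (x : CStarMatrix Unit Unit B) : one1 (x () ()) = x := by
  ext i j
  rfl

/-- The domination estimate. -/
lemma dom81 (hQC : QCutP.{u}) {C : ℝ} (hC : 0 ≤ C) (hD : DomT B C) (ω : QTrace B) {ι : Type}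
    [Fintype ι] [DecidableEq ι] (h : CStarMatrix ι ι B) (hh : 0 ≤ h) {δ ε : ℝ} (hδ : 0 < δ)
    (hτ : ∀ (φ : TState B) (σ : QTrace B), IsQ φ σ → σ.τ ι h ≤ ε) :
    ω.dim (cut h δ) ≤ C * Fintype.card ι * (ε / δ) := by
  obtain ⟨φ, σ₀, hQ, hd⟩ := hD ω
  refine (hd ι (cut h δ) (cut_nonneg _ _)).trans ?_
  refine mul_le_mul_of_nonneg_left ?_ (by positivity)
  rw [le_div_iff₀ hδ, mul_comm]
  exact (hQC B σ₀ ι h δ hh hδ).trans (hτ φ σ₀ hQ)

lemma cut_dim_le81 (hLA : CuLeAddP.{u}) (hQM : QMonoP.{u}) (ω : QTrace B) {ι : Type}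
    [Fintype ι] [DecidableEq ι] (a : CStarMatrix ι ι B) (ha : 0 ≤ a) {ε : ℝ} (hε : 0 ≤ ε) :
    ω.dim (cut a ε) ≤ ω.dim a := by
  refine hQM B ω ι ι _ _ (cut_nonneg _ _) ha (hLA B ι a a ε hε ha ha ?_)
  have h1 : (0 : CStarMatrix ι ι B) ≤ ε • 1 := smul_nonneg hε zero_le_one
  exact le_add_of_nonneg_right h1

/-- The rank of `y* f y` is at most the rank of `f`. -/
lemma dim_conj81 (hQM : QMonoP.{u}) (ω : QTrace B) (f y : B) (hf : 0 ≤ f) :
    ω.dim (one1 (star y * f * y)) ≤ ω.dim (one1 f) := by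
  have hy : 0 ≤ star y * f * y := star_left_conjugate_nonneg hf y
  refine hQM B ω Unit Unit _ _ (one1_nonneg hy) (one1_nonneg hf) ?_
  intro ε hε
  refine ⟨one1 (star y), ?_⟩
  have : one1 (star y) * one1 f * (one1 (star y)).conjTranspose - one1 (star y * f * y) = 0 := by
    rw [sub_eq_zero, cm_star_eq, ← one1H_apply, ← one1H_apply, ← one1H_apply, ← map_star,
      ← map_mul, ← map_mul, star_star]
  rw [this, norm_zero]
  exact hε

lemma conj_dg81 {n : ℕ} (f : B) (y : CStarMatrix (Fin n) Unit B) :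
    (y.conjTranspose * dg (Fin n) f * y) () () = ∑ i, star (y i ()) * f * y i () := by
  rw [CStarMatrix.mul_apply]
  refine Finset.sum_congr rfl fun i _ => ?_
  congr 1
  rw [CStarMatrix.mul_apply, Finset.sum_eq_single i]
  · rw [dg_apply, if_pos rfl, CStarMatrix.conjTranspose_apply]
  · intro j _ hj
    rw [dg_apply, if_neg hj, mul_zero]
  · intro h; exact absurd (Finset.mem_univ _) h

end

theorem tDivSrP (hN : NearCP.{u}) (hT : TTrMP.{u}) (hLA : CuLeAddP.{u}) (hSw : CuSwapP.{u})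
    (hAd : CuAddP.{u}) (hQM : QMonoP.{u}) (hQD : QDsumP.{u}) (hDg : QDgP.{u})
    (hQB : QBasicP.{u}) (hQ1 : QOneP.{u}) (hQC : QCutP.{u}) : TDivSrP.{u} := by
  intro B _ _ _ C hSR hNF hC hD N δ hδ
  obtain ⟨δ₀, hδ₀, hδ1, hδδ⟩ : ∃ δ₀ : ℝ, 0 < δ₀ ∧ δ₀ ≤ 1 ∧ δ₀ ≤ δ :=
    ⟨min δ 1, lt_min hδ one_pos, min_le_right _ _, min_le_left _ _⟩
  obtain ⟨n, hn⟩ := exists_nat_ge (16 / δ₀)
  obtain ⟨k, hk⟩ : ∃ k, k = N + n + 1 := ⟨_, rfl⟩
  have hk2 : k < 2 ^ k := Nat.lt_two_pow_self
  obtain ⟨L, hL⟩ : ∃ L, L + 1 = 2 ^ k := ⟨2 ^ k - 1, Nat.sub_add_cancel (by omega)⟩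
  have hLN : N + n + 1 ≤ L := by omega
  have hP : (2 : ℝ) ^ k = (L : ℝ) + 1 := by
    have : ((2 ^ k : ℕ) : ℝ) = ((L + 1 : ℕ) : ℝ) := by rw [hL]
    push_cast at this
    exact this
  have hL1 : (1 : ℝ) ≤ (L : ℝ) := by
    have : 1 ≤ L := by omega
    exact_mod_cast this
  have hLn : (n : ℝ) ≤ (L : ℝ) := by
    have : n ≤ L := by omega
    exact_mod_cast this
  have h16 : 16 ≤ δ₀ * L := by
    have h1 : 16 / δ₀ ≤ L := hn.trans hLn
    rw [div_le_iff₀ hδ₀] at h1
    linarith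
  set P : ℝ := (L : ℝ) + 1 with hPdef
  have hP2 : 2 ≤ P := by rw [hPdef]; linarith
  have hPpos : 0 < P := by linarith
  set eps : ℝ := 1 / (2 * P ^ 2) with heps
  have hepsp : 0 < eps := by positivity
  obtain ⟨f, s, hf, hs, hfs⟩ := hN B hSR hNF k eps hepsp
  have hfsa := hf.isSelfAdjoint
  have hcond1 : (L : ℝ) * (1 / P + eps) < 1 := by
    have e1 : (L : ℝ) = P - 1 := by rw [hPdef]; ring
    rw [e1, heps]
    have e2 : (P - 1) * (1 / P + 1 / (2 * P ^ 2)) = 1 - (P + 1) / (2 * P ^ 2) := by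
      field_simp
      ring
    rw [e2]
    have : 0 < (P + 1) / (2 * P ^ 2) := by positivity
    linarith
  have hcond2 : 1 < ((L : ℝ) + 2) * (1 / P - eps) := by
    have e1 : (L : ℝ) + 2 = P + 1 := by rw [hPdef]; ring
    rw [e1, heps]
    have e2 : (P + 1) * (1 / P - 1 / (2 * P ^ 2)) = 1 + (P - 1) / (2 * P ^ 2) := by
      field_simp
      ring
    rw [e2]
    have : 0 < (P - 1) / (2 * P ^ 2) := by
      have : 0 < P - 1 := by linarith
      positivity
    linarith
  set f' : B := cut f (s / 2) with hf'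
  have hf'0 : 0 ≤ f' := cut_nonneg _ _
  -- the first application
  set δ1 : ℝ := s / 4 with hδ1def
  have hδ1p : 0 < δ1 := by positivity
  set ε1 : ℝ := δ₀ * δ1 / (2 * (C * L + 1)) with hε1
  have hε1p : 0 < ε1 := by positivity
  have key1 : ∀ ω : QTrace B, (L : ℝ) * ω.dim (one1 f') < 1 + δ₀ := by
    intro ω
    obtain ⟨hdg0, -⟩ := hDg B ω (Fin L) f hf
    obtain ⟨y, h, hh, hle, hτ⟩ := hT B hSR (Fin L) Unit (dg (Fin L) f)
      (1 : CStarMatrix Unit Unit B) hdg0 zero_le_one (by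
        intro φ σ hQ
        rw [(hDg B σ (Fin L) f hf).2, (hQ1 B σ Unit).2, Fintype.card_fin, Fintype.card_unit,
          Nat.cast_one]
        refine lt_of_le_of_lt ?_ hcond1
        have := (hfs φ σ hQ).2
        rw [hP] at this
        exact mul_le_mul_of_nonneg_left this (by positivity)) δ1 ε1 hδ1p hε1p
    rw [cm_mul_one] at hle
    have hyy : 0 ≤ y.conjTranspose * y := cm_conj_mul_nonneg y
    have c1 : dg (Fin L) f ≤ (y.conjTranspose * y + cut h δ1) +
        (s / 2) • (1 : CStarMatrix (Fin L) (Fin L) B) := by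
      have h1 := le_cut_add hh.isSelfAdjoint δ1
      calc dg (Fin L) f ≤ y.conjTranspose * y + h + δ1 • 1 := hle
        _ ≤ y.conjTranspose * y + (cut h δ1 + δ1 • 1) + δ1 • 1 :=
            add_le_add (add_le_add le_rfl h1) le_rfl
        _ = (y.conjTranspose * y + cut h δ1) + (δ1 • 1 + δ1 • 1) := by abel
        _ = _ := by
            rw [← add_smul]
            congr 2
            rw [hδ1def]; ring
    have c2 : Cu (cut (dg (Fin L) f) (s / 2)) (y.conjTranspose * y + cut h δ1) :=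
      hLA B _ _ _ (s / 2) (by positivity) hdg0 (add_nonneg hyy (cut_nonneg _ _)) c1
    have c3 : ω.dim (cut (dg (Fin L) f) (s / 2)) ≤
        ω.dim (y.conjTranspose * y) + ω.dim (cut h δ1) :=
      (hQM B ω _ _ _ _ (cut_nonneg _ _) (add_nonneg hyy (cut_nonneg _ _)) c2).trans
        (domM_add hAd hQM hQD ω _ _ _ hyy (cut_nonneg _ _))
    have c4 : Cu (y.conjTranspose * y) (y * y.conjTranspose) := by
      have := hSw B (Fin L) Unit y.conjTranspose 0 le_rfl
      rwa [cm_conj_conj, cut_zero hyy, cut_zero (cm_mul_conj_nonneg y)] at this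
    have c5 : ω.dim (y.conjTranspose * y) ≤ 1 := by
      refine (hQM B ω _ _ _ _ hyy (cm_mul_conj_nonneg y) c4).trans ?_
      have := (hQB B ω Unit (y * y.conjTranspose) (cm_mul_conj_nonneg y)).2.2.1
      simpa using this
    have c6 : ω.dim (cut h δ1) ≤ C * L * (ε1 / δ1) := by
      have := dom81 hQC hC hD ω h hh hδ1p hτ
      rwa [Fintype.card_fin] at this
    have c7 : C * L * (ε1 / δ1) ≤ δ₀ / 2 := by
      have e1 : C * L * (ε1 / δ1) = (C * L / (C * L + 1)) * (δ₀ / 2) := by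
        rw [hε1]; field_simp
      rw [e1]
      have e2 : C * L / (C * L + 1) ≤ 1 := by
        rw [div_le_one (by positivity)]
        linarith
      calc (C * L / (C * L + 1)) * (δ₀ / 2) ≤ 1 * (δ₀ / 2) :=
            mul_le_mul_of_nonneg_right e2 (by positivity)
        _ = δ₀ / 2 := one_mul _
    have c8 : (L : ℝ) * ω.dim (one1 f') = ω.dim (cut (dg (Fin L) f) (s / 2)) := by
      rw [cut_dg hfsa, (hDg B ω (Fin L) _ (cut_nonneg _ _)).2, Fintype.card_fin]
    rw [c8]
    linarith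
  -- the second application
  set ε2 : ℝ := (δ₀ / 2) ^ 2 / (2 * (C + 1)) with hε2
  have hε2p : 0 < ε2 := by positivity
  obtain ⟨y, h, hh, hle, hτ⟩ := hT B hSR Unit (Fin (L + 2)) (1 : CStarMatrix Unit Unit B)
    (dg (Fin (L + 2)) f') zero_le_one (dg_nonneg hf'0) (by
      intro φ σ hQ
      rw [(hDg B σ (Fin (L + 2)) f' hf'0).2, (hQ1 B σ Unit).2, Fintype.card_fin,
        Fintype.card_unit, Nat.cast_one]
      refine lt_of_lt_of_le hcond2 ?_
      have h1 := (hfs φ σ hQ).1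
      rw [hP] at h1
      have h2 : σ.dim (one1 (cut f s)) ≤ σ.dim (one1 f') := by
        have e1 : cut f s = cut f' (s / 2) := by
          rw [hf', cut_cut hfsa (by positivity), add_halves]
        rw [e1, ← cut_one1 hf'0.isSelfAdjoint]
        exact cut_dim_le81 hLA hQM σ _ (one1_nonneg hf'0) (by positivity)
      have h3 : ((L + 2 : ℕ) : ℝ) = (L : ℝ) + 2 := by push_cast; ring
      rw [h3]
      exact mul_le_mul_of_nonneg_left (h1.trans h2) (by positivity)) (δ₀ / 2) ε2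
      (by positivity) hε2p
  have hent := ent81_le hle
  have e0 : (y.conjTranspose * dg (Fin (L + 2)) f' * y + h +
      (δ₀ / 2) • (1 : CStarMatrix Unit Unit B)) () () =
      ∑ i, star (y i ()) * f' * y i () + h () () + (δ₀ / 2) • (1 : B) := by
    rw [← conj_dg81]
    rfl
  rw [e0] at hent
  have hh' : 0 ≤ h () () := map_nonneg (ent81 B) hh
  have h1' : (1 : CStarMatrix Unit Unit B) () () = (1 : B) := rfl
  rw [h1', Fin.sum_univ_castSucc, Fin.sum_univ_castSucc] at hent
  set g1 : B := star (y (Fin.last L).castSucc ()) * f' * y (Fin.last L).castSucc () with hg1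
  set g2 : B := star (y (Fin.last (L + 1)) ()) * f' * y (Fin.last (L + 1)) () with hg2
  have hg1n : 0 ≤ g1 := star_left_conjugate_nonneg hf'0 _
  have hg2n : 0 ≤ g2 := star_left_conjugate_nonneg hf'0 _
  refine ⟨L, by omega, by omega, f', hf'0,
    ⟨fun i => star (y i.castSucc.castSucc ()), g1 + g2 + cut (h () ()) (δ₀ / 2),
      add_nonneg (add_nonneg hg1n hg2n) (cut_nonneg _ _), ?_, ?_⟩, ?_⟩
  · have a1 := le_cut_add hh'.isSelfAdjoint (δ₀ / 2)
    simp only [star_star]
    calc (1 : B) ≤ ∑ i : Fin L, star (y i.castSucc.castSucc ()) * f' * y i.castSucc.castSucc ()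
            + g1 + g2 + h () () + (δ₀ / 2) • (1 : B) := hent
      _ ≤ ∑ i : Fin L, star (y i.castSucc.castSucc ()) * f' * y i.castSucc.castSucc ()
            + g1 + g2 + (cut (h () ()) (δ₀ / 2) + (δ₀ / 2) • (1 : B)) + (δ₀ / 2) • (1 : B) :=
          add_le_add (add_le_add le_rfl a1) le_rfl
      _ = ∑ i : Fin L, star (y i.castSucc.castSucc ()) * f' * y i.castSucc.castSucc ()
            + (g1 + g2 + cut (h () ()) (δ₀ / 2)) + ((δ₀ / 2) • (1 : B) + (δ₀ / 2) • (1 : B)) := by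
          abel
      _ = ∑ i : Fin L, star (y i.castSucc.castSucc ()) * f' * y i.castSucc.castSucc ()
            + (g1 + g2 + cut (h () ()) (δ₀ / 2)) + δ₀ • (1 : B) := by
          rw [← add_smul, add_halves]
      _ ≤ _ := add_le_add le_rfl (smul_le_smul_of_nonneg_right hδδ zero_le_one)
  · intro ω
    have b1 : one1 (g1 + g2 + cut (h () ()) (δ₀ / 2)) =
        one1 g1 + one1 g2 + one1 (cut (h () ()) (δ₀ / 2)) := rfl
    have b2 : ω.dim (one1 g1) ≤ ω.dim (one1 f') := dim_conj81 hQM ω f' _ hf'0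
    have b3 : ω.dim (one1 g2) ≤ ω.dim (one1 f') := dim_conj81 hQM ω f' _ hf'0
    have b4 : ω.dim (one1 (cut (h () ()) (δ₀ / 2))) ≤ δ₀ / 4 := by
      rw [← cut_one1 hh'.isSelfAdjoint, one1_ent81]
      refine (dom81 hQC hC hD ω h hh (by positivity) hτ).trans ?_
      rw [Fintype.card_unit]
      have e1 : C * ((1 : ℕ) : ℝ) * (ε2 / (δ₀ / 2)) = (C / (C + 1)) * (δ₀ / 4) := by
        rw [hε2]; push_cast; field_simp; ring
      rw [e1]
      have e2 : C / (C + 1) ≤ 1 := by
        rw [div_le_one (by positivity)]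
        linarith
      calc (C / (C + 1)) * (δ₀ / 4) ≤ 1 * (δ₀ / 4) :=
            mul_le_mul_of_nonneg_right e2 (by positivity)
        _ = δ₀ / 4 := one_mul _
    have b5 : ω.dim (one1 f') ≤ δ₀ / 8 := by
      have h1 := key1 ω
      have h2 : (L : ℝ) * ω.dim (one1 f') < 2 := by linarith
      have h3 : (L : ℝ) * ω.dim (one1 f') ≤ (L : ℝ) * (δ₀ / 8) := by nlinarith
      exact le_of_mul_le_mul_left h3 (by linarith)
    rw [b1]
    have b6 := domM_add hAd hQM hQD ω Unit (one1 g1 + one1 g2)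
      (one1 (cut (h () ()) (δ₀ / 2))) (add_nonneg (one1_nonneg hg1n) (one1_nonneg hg2n))
      (one1_nonneg (cut_nonneg _ _))
    have b7 := domM_add hAd hQM hQD ω Unit (one1 g1) (one1 g2) (one1_nonneg hg1n)
      (one1_nonneg hg2n)
    linarith
  · intro ω
    have := key1 ω
    linarith

end RC
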